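import Mathlib

/-!
# A space on which both selection games on `k`-covers are undetermined

Fix for every limit `δ < ω₁` a cofinal subset `c_δ` of `δ` of order type `ω`. The points of the
space are the finite subsets of `ω₁` and the sets `c_δ`. A neighbourhood base at `x` consists of the
sets `{y : y ∩ α = x ∩ α}`, `α < ω₁`.

This is a Hausdorff `P`-space whose compact subsets are finite, and every `ω`-cover contains a
countable `ω`-cover. Hence the first player has no winning strategy in `G_1(K, K)`. The second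
player has no winning strategy in `G_fin(K, K)`: for a position `s` (after which the first player
may still announce every `α < ω₁`, that is, the cover by finite unions of `α`-cells) the set `K_s`
of all points which are covered whatever the first player does is finite; for a limit `δ` such that
all `x ∈ K_s`, for `s` a position below `δ`, are bounded below `δ`, and closed under the
Lindelöf property, the point `c_δ` can be kept uncovered forever.
-/

set_option autoImplicit false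

open Set

namespace Pool.Agent.Results.MP_367a9a_gt.UndeterminedKGames

/-! ### The games -/

/-- `KCov X` is the set of all `k`-covers of `X`: families of open sets with union `X` such that
every compact subset of `X` is contained in a member (`X` itself may be a member). -/
def KCov (X : Type) [TopologicalSpace X] : Set (Set (Set X)) :=
  {𝓤 | (∀ U ∈ 𝓤, IsOpen U) ∧ ⋃₀ 𝓤 = Set.univ ∧ ∀ K : Set X, IsCompact K → ∃ U ∈ 𝓤, K ⊆ U}

/-- The finite sequence `f 0, …, f (n - 1)`. -/
def upto {A : Type} (f : ℕ → A) (n : ℕ) : List A := (List.range n).map f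

/-- P1 has a winning strategy in `G_1(K_X, K_X)`: a function assigning to each finite sequence of
moves of P2 a `k`-cover, such that no play consistent with it is won by P2. -/
def P1WinsG1 (X : Type) [TopologicalSpace X] : Prop :=
  ∃ σ : List (Set X) → Set (Set X), (∀ s, σ s ∈ KCov X) ∧
    ∀ U : ℕ → Set X, (∀ n, U n ∈ σ (upto U n)) → Set.range U ∉ KCov X

/-- P2 has a winning strategy in `G_1(K_X, K_X)`: a function assigning to each finite sequence
`(𝓤 0, …, 𝓤 n)` of moves of P1 an element of `𝓤 n`, such that all plays consistent with it are won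
by P2. -/
def P2WinsG1 (X : Type) [TopologicalSpace X] : Prop :=
  ∃ σ : List (Set (Set X)) → Set X, ∀ 𝓤 : ℕ → Set (Set X), (∀ n, 𝓤 n ∈ KCov X) →
    (∀ n, σ (upto 𝓤 (n + 1)) ∈ 𝓤 n) ∧ Set.range (fun n => σ (upto 𝓤 (n + 1))) ∈ KCov X

/-- P1 has a winning strategy in `G_fin(K_X, K_X)`. -/
def P1WinsGfin (X : Type) [TopologicalSpace X] : Prop :=
  ∃ σ : List (Set (Set X)) → Set (Set X), (∀ s, σ s ∈ KCov X) ∧
    ∀ 𝓕 : ℕ → Set (Set X), (∀ n, (𝓕 n).Finite ∧ 𝓕 n ⊆ σ (upto 𝓕 n)) → (⋃ n, 𝓕 n) ∉ KCov X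

/-- P2 has a winning strategy in `G_fin(K_X, K_X)`. -/
def P2WinsGfin (X : Type) [TopologicalSpace X] : Prop :=
  ∃ σ : List (Set (Set X)) → Set (Set X), ∀ 𝓤 : ℕ → Set (Set X), (∀ n, 𝓤 n ∈ KCov X) →
    (∀ n, (σ (upto 𝓤 (n + 1))).Finite ∧ σ (upto 𝓤 (n + 1)) ⊆ 𝓤 n) ∧
      (⋃ n, σ (upto 𝓤 (n + 1))) ∈ KCov X

/-- `G_1(K_X, K_X)` is undetermined. -/
def UndeterminedG1 (X : Type) [TopologicalSpace X] : Prop := ¬ P1WinsG1 X ∧ ¬ P2WinsG1 X

/-- `G_fin(K_X, K_X)` is undetermined. -/
def UndeterminedGfin (X : Type) [TopologicalSpace X] : Prop := ¬ P1WinsGfin X ∧ ¬ P2WinsGfin X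

theorem upto_succ {A : Type} (f : ℕ → A) (n : ℕ) : upto f (n + 1) = upto f n ++ [f n] := by
  unfold upto
  rw [List.range_succ, List.map_append]
  rfl

theorem upto_map {A B : Type} (g : A → B) (f : ℕ → A) (n : ℕ) :
    (upto f n).map g = upto (fun k => g (f k)) n := by
  unfold upto
  rw [List.map_map]
  rfl

theorem p2WinsGfin_of_p2WinsG1 {X : Type} [TopologicalSpace X] (h : P2WinsG1 X) :
    P2WinsGfin X := by
  obtain ⟨σ, hσ⟩ := h
  refine ⟨fun s => {σ s}, fun 𝓤 h𝓤 => ⟨fun n => ⟨Set.finite_singleton _, ?_⟩, ?_⟩⟩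
  · exact Set.singleton_subset_iff.2 ((hσ 𝓤 h𝓤).1 n)
  · have := (hσ 𝓤 h𝓤).2
    rw [Set.iUnion_singleton_eq_range]
    exact this

theorem p1WinsG1_of_p1WinsGfin {X : Type} [TopologicalSpace X] (h : P1WinsGfin X) :
    P1WinsG1 X := by
  obtain ⟨σ, hσ, hw⟩ := h
  refine ⟨fun s => σ (s.map fun U => {U}), fun s => hσ _, fun U hU hK => ?_⟩
  refine hw (fun n => {U n}) (fun n => ⟨Set.finite_singleton _, ?_⟩) ?_
  · have := hU n
    simp only [upto_map] at this
    exact Set.singleton_subset_iff.2 this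
  · rw [Set.iUnion_singleton_eq_range]
    exact hK

/-! ### The first uncountable ordinal -/

/-- The first uncountable ordinal, as a well-ordered type. -/
abbrev I : Type := (Cardinal.aleph 1).ord.ToType

theorem countable_Iio (a : I) : (Iio a).Countable := by
  have h : Cardinal.mk (Iio a) < Cardinal.aleph 1 := by
    have := Cardinal.mk_Iio_lt a (by simp)
    simpa using this
  rw [← Cardinal.le_aleph0_iff_set_countable]
  exact Order.lt_succ_iff.1 (h.trans_eq Cardinal.succ_aleph0.symm)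

theorem uncountable_I : ¬ (univ : Set I).Countable := by
  rw [← Cardinal.le_aleph0_iff_set_countable, Cardinal.mk_univ]
  simp only [Cardinal.mk_toType, Cardinal.card_ord, not_le]
  exact Cardinal.aleph0_lt_aleph_one

theorem exists_bound {A : Set I} (hA : A.Countable) : ∃ b, ∀ a ∈ A, a < b := by
  by_contra! h
  refine uncountable_I ((hA.biUnion fun a _ =>
    (countable_Iio a).union (countable_singleton a)).mono fun b _ => ?_)
  obtain ⟨a, ha, hab⟩ := h b
  refine mem_biUnion ha ?_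
  rcases hab.lt_or_eq with h | h
  · exact Or.inl h
  · exact Or.inr h

instance : Nonempty I := by
  obtain ⟨b, _⟩ := exists_bound (countable_empty)
  exact ⟨b⟩

/-- The sequence `f` is strictly increasing with supremum `δ`. -/
def SeqLim (f : ℕ → I) (δ : I) : Prop := StrictMono f ∧ IsLUB (range f) δ

theorem SeqLim.lt {f : ℕ → I} {δ : I} (h : SeqLim f δ) (n : ℕ) : f n < δ :=
  (h.1 (Nat.lt_succ_self n)).trans_le (h.2.1 (mem_range_self _))

theorem SeqLim.exists_lt {f : ℕ → I} {δ : I} (h : SeqLim f δ) {a : I} (ha : a < δ) :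
    ∃ n, a < f n := by
  by_contra! h'
  exact absurd (h.2.2 (show a ∈ upperBounds (range f) by rintro _ ⟨n, rfl⟩; exact h' n))
    (not_le.2 ha)

theorem exists_seqLim (g : I → I) (hg : ∀ a, a < g a) (γ : I) :
    ∃ (f : ℕ → I) (δ : I), γ < δ ∧ SeqLim f δ ∧ ∀ n, g (f n) = f (n + 1) := by
  have hf : StrictMono (fun n : ℕ => g^[n] γ) := by
    refine strictMono_nat_of_lt_succ fun n => ?_
    rw [Function.iterate_succ_apply']
    exact hg _
  have hb : ∃ b, b ∈ upperBounds (range fun n : ℕ => g^[n] γ) := by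
    obtain ⟨b, hb⟩ := exists_bound (countable_range fun n : ℕ => g^[n] γ)
    exact ⟨b, fun a ha => (hb a ha).le⟩
  have hl : IsLUB (range fun n : ℕ => g^[n] γ)
      (WellFounded.min wellFounded_lt (upperBounds (range fun n : ℕ => g^[n] γ)) hb) := by
    refine ⟨WellFounded.min_mem _ _ _, fun b hb' => ?_⟩
    exact not_lt.1 (WellFounded.not_lt_min _ _ hb')
  have hs : SeqLim _ _ := ⟨hf, hl⟩
  refine ⟨_, _, ?_, hs, fun n => (Function.iterate_succ_apply' g n γ).symm⟩
  exact hs.lt 0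

/-! ### The ladders -/

open Classical in
/-- If `δ` is the supremum of a strictly increasing sequence, `ladder δ` is the range of such a
sequence. -/
noncomputable def ladder (δ : I) : Set I :=
  if h : ∃ f : ℕ → I, SeqLim f δ then range h.choose else ∅

theorem ladder_eq {δ : I} (h : ∃ f : ℕ → I, SeqLim f δ) :
    ∃ f, SeqLim f δ ∧ ladder δ = range f := by
  refine ⟨h.choose, h.choose_spec, ?_⟩
  unfold ladder
  rw [dif_pos h]

theorem ladder_lt {δ a : I} (ha : a ∈ ladder δ) : a < δ := by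
  by_cases h : ∃ f : ℕ → I, SeqLim f δ
  · obtain ⟨f, hf, e⟩ := ladder_eq h
    rw [e] at ha
    obtain ⟨n, rfl⟩ := ha
    exact hf.lt n
  · unfold ladder at ha
    rw [dif_neg h] at ha
    exact ha.elim

theorem ladder_inter_finite {δ α : I} (hα : α < δ) : (ladder δ ∩ Iio α).Finite := by
  by_cases h : ∃ f : ℕ → I, SeqLim f δ
  · obtain ⟨f, hf, e⟩ := ladder_eq h
    rw [e]
    obtain ⟨n, hn⟩ := hf.exists_lt hα
    refine ((Set.finite_Iio n).image f).subset ?_
    rintro _ ⟨⟨m, rfl⟩, hm⟩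
    exact ⟨m, hf.1.lt_iff_lt.1 (lt_trans hm hn), rfl⟩
  · unfold ladder
    rw [dif_neg h]
    simp

theorem ladder_finite {δ : I} (h : ¬ ∃ f : ℕ → I, SeqLim f δ) : (ladder δ).Finite := by
  unfold ladder
  rw [dif_neg h]
  exact Set.finite_empty

theorem ladder_cofinal {δ α : I} (h : ∃ f : ℕ → I, SeqLim f δ) (hα : α < δ) :
    ∃ a ∈ ladder δ, α < a := by
  obtain ⟨f, hf, e⟩ := ladder_eq h
  rw [e]
  obtain ⟨n, hn⟩ := hf.exists_lt hα
  exact ⟨f n, mem_range_self n, hn⟩

theorem ladder_inj {δ δ' : I} (h : ∃ f : ℕ → I, SeqLim f δ) (h' : ∃ f : ℕ → I, SeqLim f δ')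
    (e : ladder δ = ladder δ') : δ = δ' := by
  rcases lt_trichotomy δ δ' with hlt | heq | hlt
  · obtain ⟨a, ha, hlta⟩ := ladder_cofinal h' hlt
    rw [← e] at ha
    exact absurd (ladder_lt ha) (not_lt.2 hlta.le)
  · exact heq
  · obtain ⟨a, ha, hlta⟩ := ladder_cofinal h hlt
    rw [e] at ha
    exact absurd (ladder_lt ha) (not_lt.2 hlta.le)

/-! ### The space -/

/-- The points of the space: the finite subsets of `ω₁` and the ladders. -/
@[ext]
structure Sp : Type where
  /-- The underlying subset of `ω₁`. -/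
  set : Set I
  prop : set.Finite ∨ ∃ δ, set = ladder δ

/-- The set of points with the same intersection with `α` as `x`. -/
def cell (x : Sp) (α : I) : Set Sp := {y | y.set ∩ Iio α = x.set ∩ Iio α}

theorem mem_cell_self (x : Sp) (α : I) : x ∈ cell x α := rfl

theorem inter_eq_of_le {x y : Set I} {α β : I} (h : α ≤ β) (e : x ∩ Iio β = y ∩ Iio β) :
    x ∩ Iio α = y ∩ Iio α := by
  have : Iio α = Iio β ∩ Iio α := by
    rw [Set.inter_eq_right.2 (Iio_subset_Iio h)]
  rw [this, ← Set.inter_assoc, ← Set.inter_assoc, e]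

theorem cell_subset {x : Sp} {α β : I} (h : α ≤ β) : cell x β ⊆ cell x α :=
  fun _ hy => inter_eq_of_le h hy

instance : TopologicalSpace Sp where
  IsOpen W := ∀ x ∈ W, ∃ α, cell x α ⊆ W
  isOpen_univ := fun _ _ => by
    obtain ⟨b, _⟩ := exists_bound (countable_empty)
    exact ⟨b, subset_univ _⟩
  isOpen_inter V W hV hW x hx := by
    obtain ⟨α, hα⟩ := hV x hx.1
    obtain ⟨β, hβ⟩ := hW x hx.2
    exact ⟨max α β, subset_inter ((cell_subset (le_max_left _ _)).trans hα)
      ((cell_subset (le_max_right _ _)).trans hβ)⟩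
  isOpen_sUnion S hS x hx := by
    obtain ⟨W, hW, hxW⟩ := hx
    obtain ⟨α, hα⟩ := hS W hW x hxW
    exact ⟨α, hα.trans (subset_sUnion_of_mem hW)⟩

theorem isOpen_sp {W : Set Sp} : IsOpen W ↔ ∀ x ∈ W, ∃ α, cell x α ⊆ W := Iff.rfl

theorem isOpen_cell (x : Sp) (α : I) : IsOpen (cell x α) := by
  intro y hy
  refine ⟨α, fun z hz => ?_⟩
  exact Eq.trans hz hy

/-- Countable intersections of open sets are open. -/
theorem isOpen_sInter_countable {S : Set (Set Sp)} (hS : S.Countable) (h : ∀ U ∈ S, IsOpen U) :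
    IsOpen (⋂₀ S) := by
  intro x hx
  choose! a ha using fun U (hU : U ∈ S) => h U hU x (hx U hU)
  obtain ⟨b, hb⟩ := exists_bound (hS.image a)
  refine ⟨b, fun y hy U hU => ha U hU ?_⟩
  exact cell_subset (hb _ (mem_image_of_mem a hU)).le hy

theorem countable_set (x : Sp) : x.set.Countable := by
  rcases x.prop with h | ⟨δ, h⟩
  · exact h.countable
  · exact (countable_Iio δ).mono fun a ha => ladder_lt (h ▸ ha)

theorem le_of_ladder {x : Sp} {α : I} (h : x.set ⊆ Iio α) (hx : ¬ x.set.Finite) :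
    ∃ δ ≤ α, x.set = ladder δ := by
  rcases x.prop with h' | ⟨δ, h'⟩
  · exact absurd h' hx
  · refine ⟨δ, ?_, h'⟩
    by_contra h''
    have h3 := ladder_inter_finite (not_le.1 h'')
    rw [← h', Set.inter_eq_left.2 h] at h3
    exact hx h3

theorem countable_bounded (α : I) : {x : Sp | x.set ⊆ Iio α}.Countable := by
  have hinj : Function.Injective Sp.set := fun x y h => Sp.ext h
  have h1 : {s : Set I | s.Finite ∧ s ⊆ Iio α}.Countable :=
    Set.countable_ofPred_finite_subset (countable_Iio α)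
  have h2 : (ladder '' Iic α).Countable := by
    refine Countable.image ?_ _
    refine ((countable_Iio α).union (countable_singleton α)).mono fun b hb => ?_
    rcases (show b ≤ α from hb).lt_or_eq with h | h
    · exact Or.inl h
    · exact Or.inr h
  refine Set.Countable.mono ?_ ((h1.union h2).preimage_of_injOn hinj.injOn)
  intro x hx
  by_cases hf : x.set.Finite
  · exact Or.inl ⟨hf, hx⟩
  · obtain ⟨δ, hδ, e⟩ := le_of_ladder hx hf
    exact Or.inr ⟨δ, hδ, e.symm⟩

/-- The restriction of a point to `α`. -/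
def trunc (x : Sp) (α : I) : Sp where
  set := x.set ∩ Iio α
  prop := by
    rcases x.prop with h | ⟨δ, h⟩
    · exact Or.inl (h.subset Set.inter_subset_left)
    · rcases lt_or_ge α δ with h' | h'
      · left
        rw [h]
        exact ladder_inter_finite h'
      · right
        refine ⟨δ, ?_⟩
        rw [h, Set.inter_eq_left]
        exact fun a ha => (ladder_lt ha).trans_le h'

/-- The point `c_δ`. -/
noncomputable def lad (δ : I) : Sp := ⟨ladder δ, Or.inr ⟨δ, rfl⟩⟩

/-! ### Countable subcovers -/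

theorem finite_family_countable {C : Set Sp} (hC : C.Countable) :
    {F : Set Sp | F.Finite ∧ F ⊆ C}.Countable :=
  Set.countable_ofPred_finite_subset hC

/-- Every point other than `c_δ` is bounded below the limit `δ`. -/
theorem exists_lt_of_ne {δ : I} {f : ℕ → I} (hf : SeqLim f δ) {x : Sp} (hx : x.set ≠ ladder δ) :
    ∃ α < δ, x.set ∩ Iio δ ⊆ Iio α := by
  by_cases hfin : (x.set ∩ Iio δ).Finite
  · have : ∀ a ∈ x.set ∩ Iio δ, ∃ n, a < f n := fun a ha => hf.exists_lt ha.2
    choose! n hn using this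
    obtain ⟨N, hN⟩ := (hfin.image n).bddAbove
    refine ⟨f N, hf.lt N, fun a ha => ?_⟩
    exact (hn a ha).trans_le (hf.1.monotone (hN (mem_image_of_mem n ha)))
  · rcases x.prop with h | ⟨δ', h⟩
    · exact absurd (h.subset Set.inter_subset_left) hfin
    · rcases lt_trichotomy δ δ' with hlt | heq | hlt
      · rw [h] at hfin
        exact absurd (ladder_inter_finite hlt) hfin
      · rw [heq] at hx
        exact absurd h hx
      · refine ⟨δ', hlt, fun a ha => ?_⟩
        have h1 := ha.1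
        rw [h] at h1
        exact ladder_lt h1

theorem omega_lindelof {𝓤 : Set (Set Sp)} (hopen : ∀ U ∈ 𝓤, IsOpen U)
    (hcov : ∀ F : Set Sp, F.Finite → ∃ U ∈ 𝓤, F ⊆ U) :
    ∃ 𝓥 ⊆ 𝓤, 𝓥.Countable ∧ ∀ F : Set Sp, F.Finite → ∃ U ∈ 𝓥, F ⊆ U := by
  choose! u hu hFu using hcov
  have hb : ∀ F : Set Sp, F.Finite → ∃ β, ∀ x ∈ F, cell x β ⊆ u F := by
    intro F hF
    choose! a ha using fun x (hx : x ∈ F) => hopen (u F) (hu F hF) x (hFu F hF hx)
    obtain ⟨b, hb⟩ := exists_bound (hF.image a).countable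
    exact ⟨b, fun x hx => (cell_subset (hb _ (mem_image_of_mem a hx)).le).trans (ha x hx)⟩
  choose! β hβ using hb
  have hg : ∀ α : I, ∃ γ, α < γ ∧ ∀ F : Set Sp, F.Finite → (∀ x ∈ F, x.set ⊆ Iio α) →
      β F < γ := by
    intro α
    obtain ⟨b, hb⟩ := exists_bound (((finite_family_countable (countable_bounded α)).image β).union
      (countable_singleton α))
    exact ⟨b, hb α (Or.inr rfl), fun F hF h => hb _ (Or.inl ⟨F, ⟨hF, h⟩, rfl⟩)⟩
  choose g hg1 hg2 using hg
  have hδ : ∀ γ : I, ∃ (f : ℕ → I) (δ : I), γ < δ ∧ SeqLim f δ ∧ ∀ n, g (f n) = f (n + 1) :=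
    fun γ => exists_seqLim g hg1 γ
  choose f d hγd hlim hgf using hδ
  obtain ⟨b0, _⟩ := exists_bound (countable_empty)
  -- the sequence of closure points
  let D : ℕ → I := fun n => d^[n + 1] b0
  have hDlim : ∀ n, ∃ f : ℕ → I, SeqLim f (D n) ∧ ∀ n, g (f n) = f (n + 1) := by
    intro n
    have : D n = d (d^[n] b0) := Function.iterate_succ_apply' d n b0
    rw [this]
    exact ⟨_, hlim _, hgf _⟩
  have hDmono : StrictMono D := by
    refine strictMono_nat_of_lt_succ fun n => ?_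
    have : D (n + 1) = d (D n) := Function.iterate_succ_apply' d (n + 1) b0
    rw [this]
    exact hγd _
  obtain ⟨b, hb⟩ := exists_bound (countable_range D)
  refine ⟨u '' {F | F.Finite ∧ F ⊆ {x : Sp | x.set ⊆ Iio b}}, ?_,
    (finite_family_countable (countable_bounded b)).image u, ?_⟩
  · rintro _ ⟨F, ⟨hF, _⟩, rfl⟩
    exact hu F hF
  · intro G hG
    have hn : ∃ n, ∀ x ∈ G, x.set ≠ ladder (D n) := by
      by_contra! h
      choose x hxG hx using h
      have hinj : Function.Injective x := by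
        intro m n e
        have h1 : ladder (D m) = ladder (D n) := by rw [← hx m, ← hx n, e]
        refine hDmono.injective (ladder_inj ?_ ?_ h1)
        · obtain ⟨f, hf, _⟩ := hDlim m
          exact ⟨f, hf⟩
        · obtain ⟨f, hf, _⟩ := hDlim n
          exact ⟨f, hf⟩
      exact Set.infinite_range_of_injective hinj (hG.subset (range_subset_iff.2 hxG))
    obtain ⟨n, hn⟩ := hn
    obtain ⟨f', hf', hgf'⟩ := hDlim n
    choose! a ha1 ha2 using fun x (hx : x ∈ G) => exists_lt_of_ne hf' (hn x hx)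
    have ha3 : ∀ x ∈ G, ∃ m, a x < f' m := fun x hx => hf'.exists_lt (ha1 x hx)
    choose! m hm using ha3
    obtain ⟨N, hN⟩ := (hG.image m).bddAbove
    have h4 : ∀ x ∈ G, x.set ∩ Iio (D n) ⊆ Iio (f' N) := fun x hx y hy =>
      lt_trans (ha2 x hx hy) ((hm x hx).trans_le (hf'.1.monotone (hN (mem_image_of_mem m hx))))
    have hF : ((fun x => trunc x (f' N)) '' G).Finite := hG.image _
    have hF' : ∀ y ∈ (fun x => trunc x (f' N)) '' G, y.set ⊆ Iio (f' N) := by
      rintro _ ⟨x, _, rfl⟩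
      exact Set.inter_subset_right
    have h5 : β ((fun x => trunc x (f' N)) '' G) < D n := by
      have := hg2 (f' N) _ hF hF'
      rw [hgf'] at this
      exact this.trans (hf'.lt _)
    refine ⟨_, ⟨_, ⟨hF, fun y hy => (hF' y hy).trans (Iio_subset_Iio ?_)⟩, rfl⟩, ?_⟩
    · exact ((hf'.lt N).trans (hb _ (mem_range_self n))).le
    · intro x hx
      refine hβ _ hF (trunc x (f' N)) (mem_image_of_mem _ hx) ?_
      refine Set.Subset.antisymm ?_ ?_
      · rintro y ⟨h6, h7⟩
        exact ⟨⟨h6, h4 x hx ⟨h6, lt_trans h7 h5⟩⟩, h7⟩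
      · rintro y ⟨⟨h6, _⟩, h7⟩
        exact ⟨h6, h7⟩

/-! ### Compact sets are finite -/

theorem exists_trace {f : ℕ → Sp} (hf : Function.Injective f) :
    ∃ α, Function.Injective fun n => (f n).set ∩ Iio α := by
  have h : ∀ p : ℕ × ℕ, ∃ a : I, p.1 ≠ p.2 → ¬ (a ∈ (f p.1).set ↔ a ∈ (f p.2).set) := by
    rintro ⟨m, n⟩
    by_cases hmn : m = n
    · obtain ⟨b0, _⟩ := exists_bound (countable_empty)
      exact ⟨b0, fun h => absurd hmn h⟩
    · by_contra! h
      exact hmn (hf (Sp.ext (Set.ext fun a => (h a).2)))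
  choose a ha using h
  obtain ⟨b, hb⟩ := exists_bound (countable_range a)
  refine ⟨b, fun m n e => ?_⟩
  by_contra hmn
  have h1 := hb (a (m, n)) (mem_range_self _)
  have e' : (f m).set ∩ Iio b = (f n).set ∩ Iio b := e
  refine ha (m, n) hmn ?_
  have h2 := Set.ext_iff.1 e' (a (m, n))
  constructor
  · intro h3
    exact (h2.1 ⟨h3, h1⟩).1
  · intro h3
    exact (h2.2 ⟨h3, h1⟩).1

theorem finite_of_cells {S : Set Sp}
    (h : ∀ α, ∃ E : Set Sp, E.Finite ∧ S ⊆ ⋃ x ∈ E, cell x α) : S.Finite := by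
  by_contra hS
  have hS' : S.Infinite := hS
  let f : ℕ → Sp := fun n => (hS'.natEmbedding S n : Sp)
  have hf : Function.Injective f := fun m n e => (hS'.natEmbedding S).injective (Subtype.ext e)
  obtain ⟨α, hα⟩ := exists_trace hf
  obtain ⟨E, hE, hSE⟩ := h α
  have h1 : ∀ n, ∃ x ∈ E, f n ∈ cell x α := by
    intro n
    have := hSE (show f n ∈ S from (hS'.natEmbedding S n).2)
    obtain ⟨x, hx, h2⟩ := mem_iUnion₂.1 this
    exact ⟨x, hx, h2⟩
  choose x hx hfx using h1
  have hinj : Function.Injective x := by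
    intro m n e
    refine hα ?_
    have h3 : (f m).set ∩ Iio α = (x m).set ∩ Iio α := hfx m
    have h4 : (f n).set ∩ Iio α = (x n).set ∩ Iio α := hfx n
    have h5 : (x m).set ∩ Iio α = (x n).set ∩ Iio α := by rw [e]
    exact h3.trans (h5.trans h4.symm)
  exact Set.infinite_range_of_injective hinj (hE.subset (range_subset_iff.2 hx))

theorem finite_of_isCompact {K : Set Sp} (hK : IsCompact K) : K.Finite := by
  refine finite_of_cells fun α => ?_
  obtain ⟨t, _, ht⟩ := hK.elim_nhds_subcover (fun x => cell x α)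
    fun x _ => (isOpen_cell x α).mem_nhds (mem_cell_self x α)
  exact ⟨(t : Set Sp), t.finite_toSet, by simpa using ht⟩

theorem kCov_iff {𝓤 : Set (Set Sp)} : 𝓤 ∈ KCov Sp ↔
    (∀ U ∈ 𝓤, IsOpen U) ∧ ∀ F : Set Sp, F.Finite → ∃ U ∈ 𝓤, F ⊆ U := by
  constructor
  · rintro ⟨h1, _, h2⟩
    exact ⟨h1, fun F hF => h2 F hF.isCompact⟩
  · rintro ⟨h1, h2⟩
    refine ⟨h1, ?_, fun K hK => h2 K (finite_of_isCompact hK)⟩
    refine eq_univ_of_forall fun x => ?_
    obtain ⟨U, hU, h⟩ := h2 {x} (Set.finite_singleton x)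
    exact mem_sUnion.2 ⟨U, hU, h rfl⟩

/-! ### P1 has no winning strategy -/

theorem not_p1WinsG1 : ¬ P1WinsG1 Sp := by
  rintro ⟨σ, hσ, hw⟩
  have hc : ∀ s, ∃ 𝓥 ⊆ σ s, 𝓥.Countable ∧ ∀ F : Set Sp, F.Finite → ∃ U ∈ 𝓥, F ⊆ U := fun s =>
    omega_lindelof (kCov_iff.1 (hσ s)).1 (kCov_iff.1 (hσ s)).2
  choose c hcσ hcc hccov using hc
  choose! v hv hFv using hccov
  -- the countable tree of positions
  let T : ℕ → Set (List (Set Sp)) := fun n =>
    Nat.rec {[]} (fun _ T => ⋃ s ∈ T, (fun U => s ++ [U]) '' c s) n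
  have hTs : ∀ n, T (n + 1) = ⋃ s ∈ T n, (fun U => s ++ [U]) '' c s := fun n => rfl
  have hT : ∀ n, (T n).Countable := by
    intro n
    induction n with
    | zero => exact countable_singleton _
    | succ n ih =>
      rw [hTs]
      exact ih.biUnion fun s _ => (hcc s).image _
  let A : Set (Set Sp) := ⋃ n, ⋃ s ∈ T n, c s
  have hA : A.Countable := countable_iUnion fun n => (hT n).biUnion fun s _ => hcc s
  have hAopen : ∀ U ∈ A, IsOpen U := by
    intro U hU
    obtain ⟨n, hn⟩ := mem_iUnion.1 hU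
    obtain ⟨s, _, hs⟩ := mem_iUnion₂.1 hn
    exact (kCov_iff.1 (hσ s)).1 U (hcσ s hs)
  let W : Set Sp → Set Sp := fun F => ⋂₀ {U | U ∈ A ∧ F ⊆ U}
  have hW : ∀ F, IsOpen (W F) := fun F =>
    isOpen_sInter_countable (hA.mono fun U hU => hU.1) fun U hU => hAopen U hU.1
  have hFW : ∀ F, F ⊆ W F := fun F => subset_sInter fun U hU => hU.2
  obtain ⟨𝓥, h𝓥, h𝓥c, h𝓥cov⟩ := omega_lindelof (𝓤 := W '' {F | F.Finite})
    (by rintro _ ⟨F, _, rfl⟩; exact hW F)
    (fun F hF => ⟨W F, ⟨F, hF, rfl⟩, hFW F⟩)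
  have hne : 𝓥.Nonempty := by
    obtain ⟨U, hU, _⟩ := h𝓥cov ∅ Set.finite_empty
    exact ⟨U, hU⟩
  obtain ⟨w, hw𝓥⟩ := h𝓥c.exists_eq_range hne
  have hF : ∀ k, ∃ F : Set Sp, F.Finite ∧ W F = w k := fun k =>
    h𝓥 (hw𝓥 ▸ mem_range_self k)
  choose F hFfin hFw using hF
  -- the play
  let p : ℕ → List (Set Sp) := fun n => Nat.rec [] (fun k s => s ++ [v s (F k)]) n
  have hps : ∀ n, p (n + 1) = p n ++ [v (p n) (F n)] := fun n => rfl
  let U : ℕ → Set Sp := fun n => v (p n) (F n)
  have hpU : ∀ n, p n = upto U n := by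
    intro n
    induction n with
    | zero => rfl
    | succ n ih => rw [hps, upto_succ, ← ih]
  have hUc : ∀ n, U n ∈ c (p n) := fun n => hv (p n) (F n) (hFfin n)
  have hpT : ∀ n, p n ∈ T n := by
    intro n
    induction n with
    | zero => exact rfl
    | succ n ih =>
      rw [hps, hTs]
      exact mem_biUnion ih ⟨_, hUc n, rfl⟩
  have hUσ : ∀ n, U n ∈ σ (upto U n) := by
    intro n
    rw [← hpU]
    exact hcσ _ (hUc n)
  refine hw U hUσ (kCov_iff.2 ⟨?_, ?_⟩)
  · rintro _ ⟨n, rfl⟩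
    exact (kCov_iff.1 (hσ _)).1 _ (hUσ n)
  · intro G hG
    obtain ⟨V, hV, hGV⟩ := h𝓥cov G hG
    rw [hw𝓥] at hV
    obtain ⟨k, rfl⟩ := hV
    refine ⟨U k, mem_range_self k, hGV.trans ?_⟩
    rw [← hFw]
    refine sInter_subset_of_mem ⟨?_, hFv (p k) (F k) (hFfin k)⟩
    exact mem_iUnion.2 ⟨k, mem_biUnion (hpT k) (hUc k)⟩

/-! ### P2 has no winning strategy -/

/-- The cover by finite unions of `α`-cells. -/
def cov (α : I) : Set (Set Sp) := {U | ∃ E : Set Sp, E.Finite ∧ U = ⋃ x ∈ E, cell x α}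

theorem cov_mem (α : I) : cov α ∈ KCov Sp := by
  refine kCov_iff.2 ⟨?_, fun F hF => ⟨⋃ x ∈ F, cell x α, ⟨F, hF, rfl⟩, fun x hx => ?_⟩⟩
  · rintro _ ⟨E, _, rfl⟩
    exact isOpen_biUnion fun x _ => isOpen_cell x α
  · exact mem_biUnion hx (mem_cell_self x α)

theorem isOpen_compl_cells (E : Set Sp) (α : I) : IsOpen (⋃ x ∈ E, cell x α)ᶜ := by
  intro y hy
  refine ⟨α, fun z hz hz' => hy ?_⟩
  obtain ⟨x, hx, h⟩ := mem_iUnion₂.1 hz'
  exact mem_biUnion hx (Eq.trans (Eq.symm hz) h)

theorem not_p2WinsGfin : ¬ P2WinsGfin Sp := by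
  rintro ⟨σ, hσ⟩
  -- the part covered after the position `s` if P1 announces `α`
  let B : List I → I → Set Sp := fun s α => ⋃₀ σ ((s ++ [α]).map cov)
  have hB : ∀ s α, ∃ E : Set Sp, E.Finite ∧ B s α = ⋃ x ∈ E, cell x α := by
    intro s α
    -- extend the position to an infinite play
    let q : ℕ → I := fun n => (s ++ [α]).getD n α
    have hq : upto q (s.length + 1) = s ++ [α] := by
      refine List.ext_getElem (by simp [upto]) fun n h1 h2 => ?_
      simp only [upto, List.getElem_map, List.getElem_range, q]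
      rw [List.getD_eq_getElem _ _ h2]
    have h1 := (hσ (fun n => cov (q n)) (fun n => cov_mem _)).1 s.length
    rw [← upto_map, hq] at h1
    have hq2 : q s.length = α := by
      simp [q]
    simp only [hq2] at h1
    obtain ⟨h2, h3⟩ := h1
    choose! E hE hE' using fun U (hU : U ∈ σ ((s ++ [α]).map cov)) => h3 hU
    refine ⟨⋃ U ∈ σ ((s ++ [α]).map cov), E U, h2.biUnion hE, ?_⟩
    ext y
    constructor
    · rintro ⟨U, hU, hy⟩
      rw [hE' U hU] at hy
      obtain ⟨x, hx, h⟩ := mem_iUnion₂.1 hy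
      exact mem_biUnion (mem_biUnion hU hx) h
    · intro hy
      obtain ⟨x, hx, h⟩ := mem_iUnion₂.1 hy
      obtain ⟨U, hU, h'⟩ := mem_iUnion₂.1 hx
      refine mem_sUnion.2 ⟨U, hU, ?_⟩
      rw [hE' U hU]
      exact mem_biUnion h' h
  let K : List I → Set Sp := fun s => ⋂ α, B s α
  have hK : ∀ s, (K s).Finite := by
    intro s
    refine finite_of_cells fun α => ?_
    obtain ⟨E, hE, e⟩ := hB s α
    exact ⟨E, hE, e ▸ iInter_subset _ α⟩
  have hκ : ∀ s, ∃ b, ∀ x ∈ K s, x.set ⊆ Iio b := by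
    intro s
    obtain ⟨b, hb⟩ := exists_bound ((hK s).countable.biUnion fun x _ => countable_set x)
    exact ⟨b, fun x hx a ha => hb a (mem_biUnion hx ha)⟩
  choose κ hκ using hκ
  -- countably many covers suffice to avoid everything outside the `α`-cells of the points of `K s`
  have hD : ∀ s α, ∃ D : Set I, D.Countable ∧ ∀ y, y ∉ (⋃ x ∈ K s, cell x α) →
      ∃ β ∈ D, y ∉ B s β := by
    intro s α
    let O : Set I → Set Sp := fun D => (⋃ x ∈ K s, cell x α) ∪ ⋃ β ∈ D, (B s β)ᶜ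
    obtain ⟨𝓥, h𝓥, h𝓥c, h𝓥cov⟩ := omega_lindelof (𝓤 := O '' {D | D.Countable}) (by
        rintro _ ⟨D, _, rfl⟩
        refine (isOpen_biUnion fun x _ => isOpen_cell x α).union (isOpen_biUnion fun β _ => ?_)
        obtain ⟨E, _, e⟩ := hB s β
        rw [e]
        exact isOpen_compl_cells E β) (by
        intro F hF
        have : ∀ y ∈ F, ∃ β : I, y ∈ K s ∨ y ∉ B s β := by
          intro y _
          by_cases hy : y ∈ K s
          · exact ⟨α, Or.inl hy⟩
          · obtain ⟨β, hβ⟩ := not_forall.1 fun h => hy (mem_iInter.2 h)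
            exact ⟨β, Or.inr hβ⟩
        choose! β hβ using this
        refine ⟨_, ⟨β '' F, (hF.image β).countable, rfl⟩, fun y hy => ?_⟩
        rcases hβ y hy with h | h
        · exact Or.inl (mem_biUnion h (mem_cell_self y α))
        · exact Or.inr (mem_biUnion (mem_image_of_mem β hy) h))
    choose! D hD hDO using fun V (hV : V ∈ 𝓥) => h𝓥 hV
    refine ⟨⋃ V ∈ 𝓥, D V, h𝓥c.biUnion fun V hV => hD V hV, fun y hy => ?_⟩
    obtain ⟨V, hV, h1⟩ := h𝓥cov {y} (Set.finite_singleton y)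
    have h2 : y ∈ O (D V) := by
      rw [hDO V hV]
      exact h1 rfl
    rcases h2 with h2 | h2
    · exact absurd h2 hy
    · obtain ⟨β, hβ, h3⟩ := mem_iUnion₂.1 h2
      exact ⟨β, mem_biUnion hV hβ, h3⟩
  choose D hDc hD using hD
  have hlist : ∀ γ : I, {s : List I | ∀ a ∈ s, a < γ}.Countable := by
    intro γ
    have : Countable (Iio γ) := (countable_Iio γ).to_subtype
    refine (countable_range fun s : List (Iio γ) => s.map Subtype.val).mono fun s hs => ?_
    refine ⟨s.attach.map fun a => ⟨a.1, hs a.1 a.2⟩, ?_⟩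
    simp
  have hg : ∀ γ : I, ∃ b, γ < b ∧ ∀ s : List I, (∀ a ∈ s, a < γ) →
      κ s < b ∧ ∀ α < γ, ∀ β ∈ D s α, β < b := by
    intro γ
    obtain ⟨b, hb⟩ := exists_bound ((countable_singleton γ).union
      ((((hlist γ).image κ)).union
        ((hlist γ).biUnion fun s _ => (countable_Iio γ).biUnion fun α _ => hDc s α)))
    refine ⟨b, hb γ (Or.inl rfl), fun s hs => ⟨hb _ (Or.inr (Or.inl ⟨s, hs, rfl⟩)), ?_⟩⟩
    intro α hα β hβ
    exact hb β (Or.inr (Or.inr (mem_biUnion hs (mem_biUnion hα hβ))))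
  choose g hg1 hg2 using hg
  obtain ⟨b0, _⟩ := exists_bound (countable_empty)
  obtain ⟨f, δ, _, hf, hgf⟩ := exists_seqLim g hg1 b0
  -- P1 can always keep `c_δ` uncovered
  have key : ∀ s : List I, (∀ a ∈ s, a < δ) → ∃ β < δ, lad δ ∉ B s β := by
    intro s hs
    have hs' : ∃ n, ∀ a ∈ s, a < f n := by
      choose! m hm using fun a (ha : a ∈ s) => hf.exists_lt (hs a ha)
      obtain ⟨N, hN⟩ := ((Set.finite_mem_finset s.toFinset).image m).bddAbove
      refine ⟨N, fun a ha => (hm a ha).trans_le (hf.1.monotone (hN ?_))⟩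
      exact mem_image_of_mem m (by simpa using ha)
    obtain ⟨n, hn⟩ := hs'
    have h1 : κ s < δ := by
      have := (hg2 (f n) s hn).1
      rw [hgf] at this
      exact this.trans (hf.lt _)
    obtain ⟨ξ, hξ, hκξ⟩ := ladder_cofinal ⟨f, hf⟩ h1
    obtain ⟨m, hm⟩ := hf.exists_lt (ladder_lt hξ)
    have hm' : ξ < f (max m n) := hm.trans_le (hf.1.monotone (le_max_left _ _))
    have hn' : ∀ a ∈ s, a < f (max m n + 1) := fun a ha =>
      (hn a ha).trans_le (hf.1.monotone ((le_max_right _ _).trans (Nat.le_succ _)))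
    have h2 : lad δ ∉ ⋃ x ∈ K s, cell x (f (max m n)) := by
      intro h
      obtain ⟨x, hx, h3⟩ := mem_iUnion₂.1 h
      have h4 : ladder δ ∩ Iio (f (max m n)) = x.set ∩ Iio (f (max m n)) := h3
      have h5 : ξ ∈ x.set ∩ Iio (f (max m n)) := h4 ▸ ⟨hξ, hm'⟩
      exact absurd (hκ s x hx h5.1) (not_lt.2 hκξ.le)
    obtain ⟨β, hβ, h6⟩ := hD s (f (max m n)) (lad δ) h2
    refine ⟨β, ?_, h6⟩
    have := (hg2 (f (max m n + 1)) s hn').2 (f (max m n)) (hf.1 (Nat.lt_succ_self _)) β hβ
    rw [hgf] at this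
    exact this.trans (hf.lt _)
  choose! β hβ1 hβ2 using key
  let p : ℕ → List I := fun n => Nat.rec [] (fun _ s => s ++ [β s]) n
  have hps : ∀ n, p (n + 1) = p n ++ [β (p n)] := fun n => rfl
  have hp : ∀ n, ∀ a ∈ p n, a < δ := by
    intro n
    induction n with
    | zero =>
      intro a ha
      exact absurd ha (by simp [p])
    | succ n ih =>
      intro a ha
      rw [hps] at ha
      rcases List.mem_append.1 ha with h | h
      · exact ih a h
      · rw [List.mem_singleton.1 h]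
        exact hβ1 _ ih
  have hpu : ∀ n, p n = upto (fun k => β (p k)) n := by
    intro n
    induction n with
    | zero => rfl
    | succ n ih => rw [hps, upto_succ, ← ih]
  have h1 := (hσ (fun n => cov (β (p n))) fun n => cov_mem _).2
  obtain ⟨U, hU, h2⟩ := (kCov_iff.1 h1).2 {lad δ} (Set.finite_singleton _)
  obtain ⟨n, hn⟩ := mem_iUnion.1 hU
  rw [← upto_map cov (fun k => β (p k)), ← hpu, hps] at hn
  exact hβ2 (p n) (hp n) (mem_sUnion.2 ⟨U, hn, h2 rfl⟩)

/-! ### Separation -/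

theorem isClopen_cell (x : Sp) (α : I) : IsClopen (cell x α) := by
  refine ⟨⟨?_⟩, isOpen_cell x α⟩
  have := isOpen_compl_cells {x} α
  simpa using this

theorem basis : TopologicalSpace.IsTopologicalBasis {W : Set Sp | IsClopen W} := by
  refine TopologicalSpace.isTopologicalBasis_of_isOpen_of_nhds (fun W hW => hW.2) ?_
  intro x W hx hW
  obtain ⟨α, hα⟩ := hW x hx
  exact ⟨cell x α, isClopen_cell x α, mem_cell_self x α, hα⟩

instance : T2Space Sp := by
  refine ⟨fun x y hxy => ?_⟩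
  have h : ∃ a, ¬ (a ∈ x.set ↔ a ∈ y.set) := by
    by_contra! h
    exact hxy (Sp.ext (Set.ext h))
  obtain ⟨a, ha⟩ := h
  obtain ⟨b, hb⟩ := exists_bound (countable_singleton a)
  refine ⟨cell x b, cell y b, isOpen_cell x b, isOpen_cell y b, mem_cell_self x b,
    mem_cell_self y b, ?_⟩
  refine Set.disjoint_left.2 fun z hz hz' => ha ?_
  have e : x.set ∩ Iio b = y.set ∩ Iio b := Eq.trans (Eq.symm hz) hz'
  have h2 := Set.ext_iff.1 e a
  have h1 := hb a rfl
  constructor
  · intro h3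
    exact (h2.1 ⟨h3, h1⟩).1
  · intro h3
    exact (h2.2 ⟨h3, h1⟩).1

/-- There is a zero-dimensional Hausdorff space on which both games `G_1(K, K)` and `G_fin(K, K)`
are undetermined. -/
theorem result : ∃ (X : Type) (_ : TopologicalSpace X), T2Space X ∧
    TopologicalSpace.IsTopologicalBasis {W : Set X | IsClopen W} ∧
      UndeterminedG1 X ∧ UndeterminedGfin X :=
  ⟨Sp, inferInstance, inferInstance, basis,
    ⟨not_p1WinsG1, fun h => not_p2WinsGfin (p2WinsGfin_of_p2WinsG1 h)⟩,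
    ⟨fun h => not_p1WinsG1 (p1WinsG1_of_p1WinsGfin h), not_p2WinsGfin⟩⟩

end Pool.Agent.Results.MP_367a9a_gt.UndeterminedKGames
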